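import Pool.Agent.D0H39.MAFlowDefs

open Set Filter Topology Complex
open scoped ContDiff ComplexOrder

namespace Pool.Agent.D0H39.MAFlow

variable {n : ℕ}

/-! ### One variable: second derivative test -/

lemma second_le_zero {g g' : ℝ → ℝ} {c : ℝ} (hmax : IsLocalMax g 0)
    (hg : ∀ᶠ t in 𝓝 (0:ℝ), HasDerivAt g (g' t) t) (hg' : HasDerivAt g' c 0) : c ≤ 0 := by
  by_contra hc
  push Not at hc
  have h1 : deriv g =ᶠ[𝓝 0] g' := hg.mono fun t ht => ht.deriv
  have h2 : deriv (deriv g) 0 = c := by rw [h1.deriv_eq]; exact hg'.deriv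
  have h3 : deriv g 0 = 0 := hmax.deriv_eq_zero
  have h4 : ContinuousAt g 0 := (hg.self_of_nhds).continuousAt
  have h5 : IsLocalMin g 0 := isLocalMin_of_deriv_deriv_pos (by rw [h2]; exact hc) h3 h4
  have h6 : ∀ᶠ t in 𝓝 (0:ℝ), g t = g 0 := by
    filter_upwards [hmax, h5] with t h7 h8
    exact le_antisymm h7 h8
  have h7 : ∀ᶠ t in 𝓝 (0:ℝ), deriv g t = 0 := by
    filter_upwards [h6.eventually_nhds] with t ht
    have : g =ᶠ[𝓝 t] fun _ => g 0 := ht
    rw [this.deriv_eq, deriv_const]
  have h8 : deriv (deriv g) 0 = 0 := by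
    have : deriv g =ᶠ[𝓝 0] fun _ => (0:ℝ) := h7
    rw [this.deriv_eq, deriv_const]
  rw [h2] at h8
  exact hc.ne' h8

/-- Derivatives along a real line. -/
lemma line_deriv {f : Cn n → ℝ} {z v : Cn n} (hf : ContDiffAt ℝ 2 f z) :
    (∀ᶠ t : ℝ in 𝓝 (0:ℝ), HasDerivAt (fun t : ℝ => f (z + t • v)) (fderiv ℝ f (z + t • v) v) t) ∧
    HasDerivAt (fun t : ℝ => fderiv ℝ f (z + t • v) v) (D2 f z v v) 0 := by
  have hl : ∀ t : ℝ, HasDerivAt (fun t : ℝ => z + t • v) v t := fun t => by
    simpa using ((hasDerivAt_id t).smul_const v).const_add z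
  have hlc : Tendsto (fun t : ℝ => z + t • v) (𝓝 0) (𝓝 z) := by
    have := (hl 0).continuousAt.tendsto
    simpa using this
  constructor
  · have h1 : ∀ᶠ y in 𝓝 z, DifferentiableAt ℝ f y := by
      have := hf.eventually (by simp)
      exact this.mono fun y hy => hy.differentiableAt (by norm_num)
    filter_upwards [hlc.eventually h1] with t ht
    exact ht.hasFDerivAt.comp_hasDerivAt t (hl t)
  · have h2 : DifferentiableAt ℝ (fun y => fderiv ℝ f y) z :=
      (hf.fderiv_right (m := 1) (by norm_num)).differentiableAt (by norm_num)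
    have h3 : HasDerivAt (fun t : ℝ => fderiv ℝ f (z + t • v))
        (fderiv ℝ (fun y => fderiv ℝ f y) z v) 0 := by
      have h4 : HasFDerivAt (fun y => fderiv ℝ f y) (fderiv ℝ (fun y => fderiv ℝ f y) z)
          (z + (0:ℝ) • v) := by simpa using h2.hasFDerivAt
      exact h4.comp_hasDerivAt (0:ℝ) (hl 0)
    exact h3.clm_apply (hasDerivAt_const (0:ℝ) v) |>.congr_deriv (by simp [D2])

/-- At a local maximum of `f - ψ` along a line the second derivatives are ordered. -/
lemma D2_le_of_localMax {f : Cn n → ℝ} {z v : Cn n} (hf : ContDiffAt ℝ 2 f z) {ψ ψ' : ℝ → ℝ} {c : ℝ}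
    (hψ : ∀ᶠ t in 𝓝 (0:ℝ), HasDerivAt ψ (ψ' t) t) (hψ' : HasDerivAt ψ' c 0)
    (hmax : IsLocalMax (fun t : ℝ => f (z + t • v) - ψ t) 0) : D2 f z v v ≤ c := by
  obtain ⟨h1, h2⟩ := line_deriv (v := v) hf
  have := second_le_zero (g := fun t : ℝ => f (z + t • v) - ψ t)
    (g' := fun t : ℝ => fderiv ℝ f (z + t • v) v - ψ' t) (c := D2 f z v v - c) hmax
    (by filter_upwards [h1, hψ] with t h3 h4 using h3.sub h4) (h2.sub hψ')
  linarith

/-- diagonal entries of the complex Hessian -/
lemma complexHessian_diag (f : Cn n → ℝ) (z : Cn n) (i : Fin n)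
    (hs : D2 f z (e i) (I • e i) = D2 f z (I • e i) (e i)) :
    complexHessian f z i i = (((D2 f z (e i) (e i) + D2 f z (I • e i) (I • e i)) / 4 : ℝ) : ℂ) := by
  simp only [complexHessian]
  rw [hs]
  push_cast
  ring

lemma D2_symm {f : Cn n → ℝ} {z : Cn n} (hf : ContDiffAt ℝ 2 f z) (v w : Cn n) :
    D2 f z v w = D2 f z w v := by
  have := hf.isSymmSndFDerivAt (by simp)
  exact this v w

lemma D2_add_left (f : Cn n → ℝ) (z v v' w : Cn n) :
    D2 f z (v + v') w = D2 f z v w + D2 f z v' w := by simp [D2]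

lemma D2_add_right (f : Cn n → ℝ) (z v w w' : Cn n) :
    D2 f z v (w + w') = D2 f z v w + D2 f z v w' := by simp [D2]

lemma D2_smul_left (f : Cn n → ℝ) (z v w : Cn n) (c : ℝ) :
    D2 f z (c • v) w = c * D2 f z v w := by simp [D2]

lemma D2_smul_right (f : Cn n → ℝ) (z v w : Cn n) (c : ℝ) :
    D2 f z v (c • w) = c * D2 f z v w := by simp [D2]

/-- trace of the complex Hessian at a point -/
lemma trace_complexHessian {f : Cn n → ℝ} {z : Cn n} (hf : ContDiffAt ℝ 2 f z) :
    (complexHessian f z).trace =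
      ((∑ i, (D2 f z (e i) (e i) + D2 f z (I • e i) (I • e i)) / 4 : ℝ) : ℂ) := by
  rw [Matrix.trace]
  push_cast
  refine Finset.sum_congr rfl fun i _ => ?_
  rw [Matrix.diag_apply, complexHessian_diag f z i (D2_symm hf _ _)]
  push_cast
  ring

/-- no interior local maximum for strictly plurisubharmonic functions -/
lemma not_isLocalMax {f : Cn n → ℝ} {z : Cn n} (hn : 1 ≤ n) (hf : ContDiffAt ℝ 2 f z)
    (hp : (complexHessian f z).PosDef) : ¬ IsLocalMax f z := by
  intro hmax
  have hle : ∀ v : Cn n, D2 f z v v ≤ 0 := fun v => by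
    refine D2_le_of_localMax (v := v) (ψ := fun _ => 0) (ψ' := fun _ => 0) hf
      (Eventually.of_forall fun t => hasDerivAt_const t _) (hasDerivAt_const _ _) ?_
    have hc : ContinuousAt (fun t : ℝ => z + t • v) 0 := by fun_prop
    have hz : z = (fun t : ℝ => z + t • v) 0 := by simp
    have hmax' : IsLocalMax f ((fun t : ℝ => z + t • v) 0) := by rwa [← hz]
    have := hmax'.comp_continuous (g := fun t : ℝ => z + t • v) (b := 0) hc
    simpa [Function.comp_def] using this
  let i : Fin n := ⟨0, hn⟩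
  have h1 := hp.diag_pos (i := i)
  rw [complexHessian_diag f z i (D2_symm hf _ _)] at h1
  have h2 : (0:ℝ) < (D2 f z (e i) (e i) + D2 f z (I • e i) (I • e i)) / 4 := by exact_mod_cast h1
  have := hle (e i)
  have := hle (I • e i)
  linarith

/-! ### The Levi form -/

/-- the sesquilinear polarization -/
noncomputable def L (f : Cn n → ℝ) (z v w : Cn n) : ℂ :=
  (1 / 4 : ℂ) * (((D2 f z v w + D2 f z (I • v) (I • w) : ℝ) : ℂ)
    + I * ((D2 f z v (I • w) - D2 f z (I • v) w : ℝ) : ℂ))

lemma L_add_left (f : Cn n → ℝ) (z v v' w : Cn n) : L f z (v + v') w = L f z v w + L f z v' w := by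
  simp only [L, smul_add, D2_add_left]
  push_cast
  ring

lemma L_add_right (f : Cn n → ℝ) (z v w w' : Cn n) : L f z v (w + w') = L f z v w + L f z v w' := by
  simp only [L, smul_add, D2_add_right]
  push_cast
  ring

lemma csmul_eq (c : ℂ) (v : Cn n) : c • v = c.re • v + c.im • (I • v) := by
  ext i
  simp only [PiLp.smul_apply, PiLp.add_apply, smul_eq_mul, Complex.real_smul]
  conv_lhs => rw [← Complex.re_add_im c]
  ring

lemma I_csmul_eq (c : ℂ) (v : Cn n) : I • (c • v) = c.re • (I • v) - c.im • v := by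
  ext i
  simp only [PiLp.smul_apply, PiLp.sub_apply, smul_eq_mul, Complex.real_smul]
  conv_lhs => rw [← Complex.re_add_im c]
  ring_nf
  rw [Complex.I_sq]
  ring

lemma D2_neg_left (f : Cn n → ℝ) (z v w : Cn n) : D2 f z (-v) w = - D2 f z v w := by simp [D2]

lemma D2_neg_right (f : Cn n → ℝ) (z v w : Cn n) : D2 f z v (-w) = - D2 f z v w := by simp [D2]

lemma L_smul_left (f : Cn n → ℝ) (z v w : Cn n) (c : ℂ) : L f z (c • v) w = c * L f z v w := by
  simp only [L, I_csmul_eq, sub_eq_add_neg]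
  rw [csmul_eq c v]
  simp only [D2_add_left, D2_smul_left, D2_neg_left]
  push_cast
  conv_rhs => rw [← Complex.re_add_im c]
  ring_nf
  rw [Complex.I_sq]
  ring

lemma L_smul_right (f : Cn n → ℝ) (z v w : Cn n) (c : ℂ) :
    L f z v (c • w) = (starRingEnd ℂ) c * L f z v w := by
  simp only [L, I_csmul_eq, sub_eq_add_neg]
  rw [csmul_eq c w]
  simp only [D2_add_right, D2_smul_right, D2_neg_right]
  have hc : (starRingEnd ℂ) c = (c.re : ℂ) - c.im * I := by
    apply Complex.ext <;> simp
  rw [hc]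
  push_cast
  ring_nf
  rw [Complex.I_sq]
  ring

lemma L_self {f : Cn n → ℝ} {z : Cn n} (hf : ContDiffAt ℝ 2 f z) (v : Cn n) :
    L f z v v = (((D2 f z v v + D2 f z (I • v) (I • v)) / 4 : ℝ) : ℂ) := by
  simp only [L]
  rw [D2_symm hf v (I • v)]
  push_cast
  ring

lemma sum_e (v : Cn n) : v = ∑ i, v i • e i := by
  ext j
  simp [e, Finset.sum_apply, Pi.single_apply]

lemma L_sum_left (f : Cn n → ℝ) (z w : Cn n) {ι : Type*} (s : Finset ι) (g : ι → Cn n) :
    L f z (∑ i ∈ s, g i) w = ∑ i ∈ s, L f z (g i) w := by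
  classical
  induction s using Finset.induction_on with
  | empty =>
    have := L_smul_left f z 0 w 0
    simpa using this
  | insert a s ha ih => rw [Finset.sum_insert ha, Finset.sum_insert ha, L_add_left, ih]

lemma L_sum_right (f : Cn n → ℝ) (z v : Cn n) {ι : Type*} (s : Finset ι) (g : ι → Cn n) :
    L f z v (∑ i ∈ s, g i) = ∑ i ∈ s, L f z v (g i) := by
  classical
  induction s using Finset.induction_on with
  | empty =>
    have := L_smul_right f z v 0 0
    simpa using this
  | insert a s ha ih => rw [Finset.sum_insert ha, Finset.sum_insert ha, L_add_right, ih]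

lemma L_eq_sum (f : Cn n → ℝ) (z v : Cn n) :
    L f z v v = ∑ i, ∑ j, v i * complexHessian f z i j * (starRingEnd ℂ) (v j) := by
  conv_lhs => rw [sum_e v, L_sum_left]
  refine Finset.sum_congr rfl fun i _ => ?_
  rw [L_sum_right]
  refine Finset.sum_congr rfl fun j _ => ?_
  rw [L_smul_left, L_smul_right]
  simp only [complexHessian, L]
  ring

/-- positivity of the Levi form -/
lemma levi_nonneg {f : Cn n → ℝ} {z : Cn n} (hf : ContDiffAt ℝ 2 f z)
    (hp : (complexHessian f z).PosDef) (v : Cn n) (hv : v ≠ 0) :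
    0 < D2 f z v v + D2 f z (I • v) (I • v) := by
  have h1 := L_eq_sum f z v
  rw [L_self hf] at h1
  have hx : (fun i => (starRingEnd ℂ) (v i)) ≠ 0 := by
    intro h
    apply hv
    ext i
    have := congrFun h i
    simpa using this
  have h2 := hp.dotProduct_mulVec_pos hx
  have h3 : dotProduct (star (fun i => (starRingEnd ℂ) (v i)))
      ((complexHessian f z).mulVec (fun i => (starRingEnd ℂ) (v i))) =
      ∑ i, ∑ j, v i * complexHessian f z i j * (starRingEnd ℂ) (v j) := by
    simp only [dotProduct, Matrix.mulVec, Pi.star_apply, Finset.mul_sum]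
    refine Finset.sum_congr rfl fun i _ => Finset.sum_congr rfl fun j _ => ?_
    simp
    ring
  rw [h3, ← h1] at h2
  have h4 : (0:ℝ) < (D2 f z v v + D2 f z (I • v) (I • v)) / 4 := by exact_mod_cast h2
  linarith

end Pool.Agent.D0H39.MAFlow
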