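import Pool.Agent.D0H39.MAFlowA

open Set Filter Topology Complex MeasureTheory
open scoped ContDiff ComplexOrder

namespace Pool.Agent.D0H39.MAFlow

variable {n : ℕ}

noncomputable local instance fintypeRoots (N : ℕ) [NeZero N] : Fintype (rootsOfUnity N ℂ) :=
  Fintype.ofFinite _

lemma norm_root {N : ℕ} [NeZero N] (g : rootsOfUnity N ℂ) : ‖((g : ℂˣ) : ℂ)‖ = 1 :=
  Complex.norm_eq_one_of_mem_rootsOfUnity g.2

/-- discrete sub-mean value inequality with a rotation parameter -/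
lemma exists_rotation {f : Cn n → ℝ} {a : Cn n} {r : ℝ} {Ω : Set (Cn n)}
    (hΩ : Metric.closedBall a r ⊆ Ω)
    (hf : ∀ z ∈ Ω, ContDiffAt ℝ 2 f z) (hp : ∀ z ∈ Ω, (complexHessian f z).PosDef)
    (N : ℕ) [NeZero N] {v : Cn n} (hv : ‖v‖ ≤ r) :
    ∃ ζ : ℂ, ‖ζ‖ = 1 ∧
      N * f a ≤ ∑ g : rootsOfUnity N ℂ, f (a + (((g : ℂˣ) : ℂ) * ζ) • v) := by
  classical
  have hcard : Fintype.card (rootsOfUnity N ℂ) = N := by
    rw [← Nat.card_eq_fintype_card]; exact Complex.card_rootsOfUnity N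
  rcases eq_or_ne v 0 with rfl | hv0
  · refine ⟨1, by simp, ?_⟩
    simp [hcard]
  have hmem : ∀ (g : rootsOfUnity N ℂ) (ζ : ℂ), ‖ζ‖ ≤ 1 → a + (((g : ℂˣ) : ℂ) * ζ) • v ∈ Ω := by
    intro g ζ hζ
    apply hΩ
    rw [Metric.mem_closedBall, dist_eq_norm, add_sub_cancel_left, norm_smul, norm_mul, norm_root,
      one_mul]
    calc ‖ζ‖ * ‖v‖ ≤ 1 * ‖v‖ := by gcongr
      _ ≤ r := by simpa using hv
  set F : ℂ → ℝ := fun ζ => ∑ g : rootsOfUnity N ℂ, f (a + (((g : ℂˣ) : ℂ) * ζ) • v) with hF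
  have hFc : ContinuousOn F (Metric.closedBall 0 1) := by
    apply continuousOn_finsetSum
    intro g _ ζ hζ
    have h1 := (hf _ (hmem g ζ (by simpa using hζ))).continuousAt
    have h2 : ContinuousAt (fun ζ : ℂ => a + (((g : ℂˣ) : ℂ) * ζ) • v) ζ := by fun_prop
    exact (ContinuousAt.comp (f := fun ζ : ℂ => a + (((g : ℂˣ) : ℂ) * ζ) • v) h1
      h2).continuousWithinAt
  obtain ⟨ζ₀, hζ₀, hmax⟩ := (isCompact_closedBall (0:ℂ) 1).exists_isMaxOn
    ⟨0, Metric.mem_closedBall_self zero_le_one⟩ hFc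
  have hF0 : F 0 = N * f a := by simp [hF, hcard]
  rcases (show ‖ζ₀‖ ≤ 1 by simpa using hζ₀).eq_or_lt with h1 | h1
  · exact ⟨ζ₀, h1, by rw [← hF0]; exact hmax (Metric.mem_closedBall_self zero_le_one)⟩
  exfalso
  have hloc : IsLocalMax F ζ₀ := by
    have : Metric.closedBall (0:ℂ) 1 ∈ 𝓝 ζ₀ :=
      Filter.mem_of_superset (Metric.isOpen_ball.mem_nhds (by simpa using h1 : ζ₀ ∈ Metric.ball 0 1))
        Metric.ball_subset_closedBall
    exact hmax.isLocalMax this
  have key : ∀ w : ℂ, ∑ g : rootsOfUnity N ℂ, D2 f (a + (((g : ℂˣ) : ℂ) * ζ₀) • v)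
      ((((g : ℂˣ) : ℂ) * w) • v) ((((g : ℂˣ) : ℂ) * w) • v) ≤ 0 := by
    intro w
    have hl := fun g : rootsOfUnity N ℂ =>
      line_deriv (v := (((g : ℂˣ) : ℂ) * w) • v) (hf _ (hmem g ζ₀ h1.le))
    refine second_le_zero (g := fun t : ℝ => F (ζ₀ + t * w))
      (g' := fun t : ℝ => ∑ g : rootsOfUnity N ℂ,
        fderiv ℝ f (a + (((g : ℂˣ) : ℂ) * ζ₀) • v + t • ((((g : ℂˣ) : ℂ) * w) • v))
          ((((g : ℂˣ) : ℂ) * w) • v)) ?_ ?_ ?_
    · have hc : ContinuousAt (fun t : ℝ => ζ₀ + (t:ℂ) * w) 0 := by fun_prop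
      have hz : ζ₀ = (fun t : ℝ => ζ₀ + (t:ℂ) * w) 0 := by simp
      have hloc' : IsLocalMax F ((fun t : ℝ => ζ₀ + (t:ℂ) * w) 0) := by rwa [← hz]
      have := hloc'.comp_continuous (g := fun t : ℝ => ζ₀ + (t:ℂ) * w) (b := 0) hc
      simpa [Function.comp_def] using this
    · have : ∀ᶠ t : ℝ in 𝓝 (0:ℝ), ∀ g : rootsOfUnity N ℂ, HasDerivAt
          (fun t : ℝ => f (a + (((g : ℂˣ) : ℂ) * ζ₀) • v + t • ((((g : ℂˣ) : ℂ) * w) • v)))
          (fderiv ℝ f (a + (((g : ℂˣ) : ℂ) * ζ₀) • v + t • ((((g : ℂˣ) : ℂ) * w) • v))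
          ((((g : ℂˣ) : ℂ) * w) • v)) t := eventually_all.2 fun g => (hl g).1
      filter_upwards [this] with t ht
      have h2 := HasDerivAt.fun_sum (u := Finset.univ) fun g _ => ht g
      refine h2.congr_of_eventuallyEq (Eventually.of_forall fun s => ?_)
      simp only [hF]
      refine Finset.sum_congr rfl fun g _ => ?_
      congr 1
      rw [add_assoc]
      congr 1
      rw [← Complex.coe_smul s, smul_smul, ← add_smul]
      congr 1
      ring
    · exact HasDerivAt.fun_sum (u := Finset.univ) fun g _ => (hl g).2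
  have h2 := key 1
  have h3 := key I
  have h4 : (0:ℝ) < ∑ g : rootsOfUnity N ℂ, (D2 f (a + (((g : ℂˣ) : ℂ) * ζ₀) • v)
      ((((g : ℂˣ) : ℂ) * 1) • v) ((((g : ℂˣ) : ℂ) * 1) • v) +
      D2 f (a + (((g : ℂˣ) : ℂ) * ζ₀) • v)
      ((((g : ℂˣ) : ℂ) * I) • v) ((((g : ℂˣ) : ℂ) * I) • v)) := by
    apply Finset.sum_pos
    · intro g _
      have h5 := levi_nonneg (hf _ (hmem g ζ₀ h1.le)) (hp _ (hmem g ζ₀ h1.le))
        ((((g : ℂˣ) : ℂ) * 1) • v) (by
          rw [mul_one]; exact smul_ne_zero (Units.ne_zero _) hv0)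
      have h6 : I • (((((g : ℂˣ) : ℂ) * 1) • v)) = (((g : ℂˣ) : ℂ) * I) • v := by
        rw [smul_smul]; congr 1; ring
      rw [h6] at h5
      exact h5
    · exact ⟨1, Finset.mem_univ _⟩
  rw [Finset.sum_add_distrib] at h4
  linarith

/-- every unit complex number is close to an `N`-th root of unity -/
lemma exists_near_root (N : ℕ) [NeZero N] {ζ : ℂ} (hζ : ‖ζ‖ = 1) :
    ∃ h : rootsOfUnity N ℂ, ‖ζ * ((((h : ℂˣ) : ℂ))⁻¹) - 1‖ ≤ 2 * Real.pi / N := by
  have hN : (0:ℝ) < N := by exact_mod_cast Nat.pos_of_ne_zero (NeZero.ne N)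
  have hN' : (N:ℂ) ≠ 0 := by exact_mod_cast NeZero.ne N
  set α := Complex.arg ζ
  have hζe : ζ = exp (α * I) := by
    have := Complex.norm_mul_exp_arg_mul_I ζ
    rw [hζ] at this
    simpa using this.symm
  set m : ℤ := ⌊α * N / (2 * Real.pi)⌋
  have hu : exp (2 * Real.pi * I * (m / N)) ≠ 0 := exp_ne_zero _
  have hpow : (Units.mk0 _ hu) ∈ rootsOfUnity N ℂ := by
    rw [_root_.mem_rootsOfUnity, Units.ext_iff]
    simp only [Units.val_pow_eq_pow_val, Units.val_mk0, Units.val_one]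
    rw [← Complex.exp_nat_mul, show (N:ℂ) * (2 * Real.pi * I * (m / N)) = m * (2 * Real.pi * I) by
      field_simp, Complex.exp_int_mul_two_pi_mul_I]
  refine ⟨⟨_, hpow⟩, ?_⟩
  simp only [Units.val_mk0]
  rw [hζe, ← Complex.exp_neg, ← Complex.exp_add]
  have h1 : (α:ℂ) * I + -(2 * Real.pi * I * (m / N)) = I * ((α - 2 * Real.pi * m / N : ℝ) : ℂ) := by
    push_cast; ring
  rw [h1]
  refine (Real.norm_exp_I_mul_ofReal_sub_one_le).trans ?_
  have h2 : (m:ℝ) ≤ α * N / (2 * Real.pi) := Int.floor_le _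
  have h3 : α * N / (2 * Real.pi) < m + 1 := Int.lt_floor_add_one _
  have hpi := Real.pi_pos
  rw [le_div_iff₀ (by positivity)] at h2
  rw [div_lt_iff₀ (by positivity)] at h3
  rw [Real.norm_eq_abs, abs_le]
  have h4 : α - 2 * Real.pi * m / N = (α * N - m * (2 * Real.pi)) / N := by field_simp
  rw [h4]
  constructor
  · have : 0 ≤ (α * N - m * (2 * Real.pi)) / N := div_nonneg (by linarith) hN.le
    have : 0 ≤ 2 * Real.pi / N := by positivity
    linarith
  · gcongr
    linarith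

/-- uniform discrete sub-mean value inequality -/
lemma uniform_mean {f : Cn n → ℝ} {a : Cn n} {r : ℝ} (hr : 0 < r) {Ω : Set (Cn n)}
    (hΩ : Metric.closedBall a r ⊆ Ω)
    (hf : ∀ z ∈ Ω, ContDiffAt ℝ 2 f z) (hp : ∀ z ∈ Ω, (complexHessian f z).PosDef)
    {ε : ℝ} (hε : 0 < ε) :
    ∃ (N : ℕ) (_ : NeZero N), ∀ v : Cn n, ‖v‖ ≤ r →
      N * (f a - ε) ≤ ∑ g : rootsOfUnity N ℂ, f (a + ((g : ℂˣ) : ℂ) • v) := by
  classical
  have hc : ContinuousOn f (Metric.closedBall a r) := fun z hz =>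
    (hf z (hΩ hz)).continuousAt.continuousWithinAt
  have hu := (isCompact_closedBall a r).uniformContinuousOn_of_continuous hc
  rw [Metric.uniformContinuousOn_iff] at hu
  obtain ⟨δ, hδ, hu⟩ := hu ε hε
  obtain ⟨N, hN⟩ := exists_nat_gt (2 * Real.pi * r / δ)
  have hpi := Real.pi_pos
  have hN0 : (0:ℝ) < N := lt_of_le_of_lt (by positivity) hN
  have : NeZero N := ⟨by rintro rfl; simp at hN0⟩
  refine ⟨N, inferInstance, fun v hv => ?_⟩
  obtain ⟨ζ, hζ, hle⟩ := exists_rotation hΩ hf hp N hv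
  obtain ⟨h, hh⟩ := exists_near_root N hζ
  set ξ : ℂ := ζ * ((((h : ℂˣ) : ℂ))⁻¹) with hξ
  have hh0 : ((h : ℂˣ) : ℂ) ≠ 0 := Units.ne_zero _
  have hζξ : ζ = ((h : ℂˣ) : ℂ) * ξ := by rw [hξ]; field_simp
  have hξ1 : ‖ξ‖ = 1 := by rw [hξ, norm_mul, norm_inv, norm_root, hζ]; norm_num
  have hre : ∑ g : rootsOfUnity N ℂ, f (a + (((g : ℂˣ) : ℂ) * ζ) • v) =
      ∑ g : rootsOfUnity N ℂ, f (a + (((g : ℂˣ) : ℂ) * ξ) • v) := by
    rw [← Equiv.sum_comp (Equiv.mulRight h) (fun g : rootsOfUnity N ℂ =>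
      f (a + (((g : ℂˣ) : ℂ) * ξ) • v))]
    refine Finset.sum_congr rfl fun g _ => ?_
    simp only [Equiv.coe_mulRight, Subgroup.coe_mul, Units.val_mul]
    rw [hζξ, mul_assoc]
  rw [hre] at hle
  have hcard : Fintype.card (rootsOfUnity N ℂ) = N := by
    rw [← Nat.card_eq_fintype_card]; exact Complex.card_rootsOfUnity N
  have hterm : ∀ g : rootsOfUnity N ℂ, f (a + (((g : ℂˣ) : ℂ) * ξ) • v) ≤
      f (a + ((g : ℂˣ) : ℂ) • v) + ε := by
    intro g
    have hm1 : a + (((g : ℂˣ) : ℂ) * ξ) • v ∈ Metric.closedBall a r := by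
      rw [Metric.mem_closedBall, dist_eq_norm, add_sub_cancel_left, norm_smul, norm_mul, norm_root,
        hξ1]
      linarith
    have hm2 : a + ((g : ℂˣ) : ℂ) • v ∈ Metric.closedBall a r := by
      rw [Metric.mem_closedBall, dist_eq_norm, add_sub_cancel_left, norm_smul, norm_root]
      linarith
    have hd : dist (a + (((g : ℂˣ) : ℂ) * ξ) • v) (a + ((g : ℂˣ) : ℂ) • v) < δ := by
      rw [dist_eq_norm, add_sub_add_left_eq_sub, ← sub_smul, norm_smul,
        show ((g : ℂˣ) : ℂ) * ξ - ((g : ℂˣ) : ℂ) = ((g : ℂˣ) : ℂ) * (ξ - 1) by ring, norm_mul,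
        norm_root, one_mul]
      calc ‖ξ - 1‖ * ‖v‖ ≤ (2 * Real.pi / N) * r := by gcongr
        _ < δ := by
          rw [div_lt_iff₀ hδ] at hN
          rw [div_mul_eq_mul_div, div_lt_iff₀ hN0]
          linarith
    have := hu _ hm1 _ hm2 hd
    rw [Real.dist_eq, abs_lt] at this
    linarith [this.2]
  have hsum : ∑ g : rootsOfUnity N ℂ, f (a + (((g : ℂˣ) : ℂ) * ξ) • v) ≤
      ∑ g : rootsOfUnity N ℂ, (f (a + ((g : ℂˣ) : ℂ) • v) + ε) := Finset.sum_le_sum fun g _ => hterm g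
  rw [Finset.sum_add_distrib, Finset.sum_const, Finset.card_univ, hcard, nsmul_eq_mul] at hsum
  linarith

/-- multiplication by a unit complex number preserves the volume of `ℂⁿ` -/
lemma measurePreserving_smul (c : ℂ) (hc : ‖c‖ = 1) :
    MeasurePreserving (fun v : Cn n => c • v) volume volume := by
  have hc0 : c ≠ 0 := by rintro rfl; simp at hc
  let l : Cn n →ₗ[ℝ] Cn n := (LinearMap.lsmul ℂ (Cn n) c).restrictScalars ℝ
  have hl : ∀ v, l v = c • v := fun v => rfl
  have hinj : Function.Injective l := fun v w h => by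
    have : c • v = c • w := h
    exact smul_right_injective _ hc0 this
  have hdet : LinearMap.det l ≠ 0 := by
    have hbij : IsUnit l := by
      rw [LinearMap.isUnit_iff_ker_eq_bot]
      exact LinearMap.ker_eq_bot.2 hinj
    exact (LinearMap.isUnit_iff_isUnit_det l).1 hbij |>.ne_zero
  refine ⟨by fun_prop, ?_⟩
  have hmap := Measure.map_linearMap_addHaar_eq_smul_addHaar (volume : Measure (Cn n)) hdet
  have hball := Measure.addHaar_preimage_linearMap (volume : Measure (Cn n)) hdet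
    (Metric.ball 0 1)
  have hpre : l ⁻¹' (Metric.ball 0 1) = Metric.ball 0 1 := by
    ext v
    simp [hl, norm_smul, hc]
  rw [hpre] at hball
  have hpos : (volume : Measure (Cn n)) (Metric.ball 0 1) ≠ 0 :=
    (Metric.measure_ball_pos volume _ one_pos).ne'
  have hfin : (volume : Measure (Cn n)) (Metric.ball 0 1) ≠ ⊤ := measure_ball_lt_top.ne
  have hone : ENNReal.ofReal |(LinearMap.det l)⁻¹| = 1 := by
    have h1 : ENNReal.ofReal |(LinearMap.det l)⁻¹| * (volume : Measure (Cn n)) (Metric.ball 0 1) =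
      1 * (volume : Measure (Cn n)) (Metric.ball 0 1) := by rw [one_mul]; exact hball.symm
    exact (ENNReal.mul_left_inj hpos hfin).1 h1
  have : (fun v : Cn n => c • v) = l := rfl
  rw [this, hmap, hone, one_smul]

/-- sub-mean value inequality over balls -/
lemma ball_mean {f : Cn n → ℝ} {a : Cn n} {r : ℝ} (hr : 0 < r) {Ω : Set (Cn n)}
    (hΩ : Metric.closedBall a r ⊆ Ω)
    (hf : ∀ z ∈ Ω, ContDiffAt ℝ 2 f z) (hp : ∀ z ∈ Ω, (complexHessian f z).PosDef) :
    (volume : Measure (Cn n)).real (Metric.ball 0 r) * f a ≤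
      ∫ v in Metric.ball (0 : Cn n) r, f (a + v) := by
  classical
  have hc : ContinuousOn f (Metric.closedBall a r) := fun z hz =>
    (hf z (hΩ hz)).continuousAt.continuousWithinAt
  have hint : ∀ c : ℂ, ‖c‖ = 1 → IntegrableOn (fun v => f (a + c • v)) (Metric.ball (0 : Cn n) r) := by
    intro c hc1
    have h1 : ContinuousOn (fun v => f (a + c • v)) (Metric.closedBall (0 : Cn n) r) := by
      apply hc.comp (by fun_prop)
      intro v hv
      rw [Metric.mem_closedBall, dist_eq_norm, add_sub_cancel_left, norm_smul, hc1, one_mul]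
      simpa using hv
    exact (h1.integrableOn_compact (isCompact_closedBall _ _)).mono_set Metric.ball_subset_closedBall
  have hrot : ∀ c : ℂ, ‖c‖ = 1 → ∫ v in Metric.ball (0 : Cn n) r, f (a + c • v) =
      ∫ v in Metric.ball (0 : Cn n) r, f (a + v) := by
    intro c hc1
    have hc0 : c ≠ 0 := by rintro rfl; simp at hc1
    have hpre : (fun v : Cn n => c • v) ⁻¹' (Metric.ball 0 r) = Metric.ball 0 r := by
      ext v; simp [norm_smul, hc1]
    have hemb : MeasurableEmbedding (fun v : Cn n => c • v) :=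
      (Homeomorph.smulOfNeZero c hc0).measurableEmbedding
    have := (measurePreserving_smul (n := n) c hc1).setIntegral_preimage_emb hemb
      (fun v => f (a + v)) (Metric.ball 0 r)
    rw [hpre] at this
    exact this
  have hvol : 0 < (volume : Measure (Cn n)).real (Metric.ball 0 r) :=
    ENNReal.toReal_pos (Metric.measure_ball_pos volume _ hr).ne' measure_ball_lt_top.ne
  have key : ∀ ε : ℝ, 0 < ε → (volume : Measure (Cn n)).real (Metric.ball 0 r) * (f a - ε) ≤
      ∫ v in Metric.ball (0 : Cn n) r, f (a + v) := by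
    intro ε hε
    obtain ⟨N, hN, hle⟩ := uniform_mean hr hΩ hf hp hε
    have hN0 : (0:ℝ) < N := by exact_mod_cast Nat.pos_of_ne_zero (NeZero.ne N)
    have h1 : ∫ v in Metric.ball (0 : Cn n) r, (N * (f a - ε)) ≤
        ∫ v in Metric.ball (0 : Cn n) r, ∑ g : rootsOfUnity N ℂ, f (a + ((g : ℂˣ) : ℂ) • v) := by
      apply setIntegral_mono_on
      · exact integrableOn_const measure_ball_lt_top.ne
      · exact integrable_finsetSum _ fun g _ => hint _ (norm_root g)
      · exact measurableSet_ball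
      · intro v hv
        exact hle v (by simpa using (Metric.ball_subset_closedBall hv))
    rw [setIntegral_const, integral_finsetSum _ fun g _ => hint _ (norm_root g)] at h1
    rw [Finset.sum_congr rfl fun g _ => hrot _ (norm_root g), Finset.sum_const, Finset.card_univ,
      ← Nat.card_eq_fintype_card, Complex.card_rootsOfUnity N, nsmul_eq_mul, smul_eq_mul] at h1
    have h2 : N * ((volume : Measure (Cn n)).real (Metric.ball 0 r) * (f a - ε)) ≤
      N * ∫ v in Metric.ball (0 : Cn n) r, f (a + v) := by linarith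
    exact le_of_mul_le_mul_left h2 hN0
  refine le_of_forall_pos_le_add fun ε hε => ?_
  have := key (ε / (volume : Measure (Cn n)).real (Metric.ball 0 r)) (by positivity)
  rw [mul_sub, mul_div_cancel₀ _ hvol.ne'] at this
  linarith

end Pool.Agent.D0H39.MAFlow
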