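import Pool.Agent.D0H39.MAFlowB

open Set Filter Topology Complex MeasureTheory
open scoped ContDiff ComplexOrder

namespace Pool.Agent.D0H39.MAFlow

variable {n : ℕ}

/-! ### The unit ball is a strictly pseudoconvex domain -/

/-- real part of the `i`-th coordinate -/
noncomputable def Rc (i : Fin n) : Cn n →L[ℝ] ℝ :=
  Complex.reCLM.comp ((EuclideanSpace.proj i : Cn n →L[ℂ] ℂ).restrictScalars ℝ)

/-- imaginary part of the `i`-th coordinate -/
noncomputable def Ic (i : Fin n) : Cn n →L[ℝ] ℝ :=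
  Complex.imCLM.comp ((EuclideanSpace.proj i : Cn n →L[ℂ] ℂ).restrictScalars ℝ)

@[simp] lemma Rc_apply (i : Fin n) (z : Cn n) : Rc i z = (z i).re := rfl
@[simp] lemma Ic_apply (i : Fin n) (z : Cn n) : Ic i z = (z i).im := rfl

/-- the defining function of the unit ball -/
noncomputable def rho (z : Cn n) : ℝ := ‖z‖ ^ 2 - 1

lemma norm_sq_eq (z : Cn n) : ‖z‖ ^ 2 = ∑ i, (Rc i z * Rc i z + Ic i z * Ic i z) := by
  rw [EuclideanSpace.norm_sq_eq]
  refine Finset.sum_congr rfl fun i _ => ?_
  rw [← Complex.normSq_eq_norm_sq, Complex.normSq_apply]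
  rfl

/-- derivative of the squared norm -/
noncomputable def dN (z : Cn n) : Cn n →L[ℝ] ℝ :=
  ∑ i, ((2 * Rc i z) • Rc i + (2 * Ic i z) • Ic i)

lemma hasFDerivAt_rho (z : Cn n) : HasFDerivAt (rho (n := n)) (dN z) z := by
  have h1 : HasFDerivAt (fun z : Cn n => ∑ i, (Rc i z * Rc i z + Ic i z * Ic i z)) (dN z) z := by
    have h2 := HasFDerivAt.fun_sum (u := (Finset.univ : Finset (Fin n)))
      (A := fun i (z : Cn n) => (Rc i z * Rc i z + Ic i z * Ic i z)) (x := z)
      (A' := fun i => (Rc i z • Rc i + Rc i z • Rc i) + (Ic i z • Ic i + Ic i z • Ic i))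
      (fun i _ => ((Rc i).hasFDerivAt.mul (Rc i).hasFDerivAt).add
        ((Ic i).hasFDerivAt.mul (Ic i).hasFDerivAt))
    refine h2.congr_fderiv ?_
    rw [dN]
    refine Finset.sum_congr rfl fun i _ => ?_
    ext v
    simp
    ring
  have h3 : (rho (n := n)) = fun z : Cn n => ∑ i, (Rc i z * Rc i z + Ic i z * Ic i z) - 1 := by
    funext z; rw [rho, norm_sq_eq]
  rw [h3]
  exact h1.sub_const 1

lemma fderiv_rho : (fun z : Cn n => fderiv ℝ (rho (n := n)) z) = dN :=
  funext fun z => (hasFDerivAt_rho z).fderiv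

/-- `dN` as a linear map -/
noncomputable def dNL : Cn n →L[ℝ] (Cn n →L[ℝ] ℝ) :=
  ∑ i, ((2:ℝ) • (Rc i).smulRight (Rc i) + (2:ℝ) • (Ic i).smulRight (Ic i))

lemma dN_eq : (dN : Cn n → Cn n →L[ℝ] ℝ) = dNL := by
  funext z
  ext v
  simp [dN, dNL, mul_assoc]

lemma D2_rho (z v w : Cn n) : D2 (rho (n := n)) z v w =
    ∑ i, (2 * ((v i).re * (w i).re) + 2 * ((v i).im * (w i).im)) := by
  rw [D2, fderiv_rho, dN_eq, ContinuousLinearMap.fderiv]
  simp [dNL]

lemma complexHessian_rho (z : Cn n) : complexHessian (rho (n := n)) z = 1 := by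
  ext i j
  simp only [complexHessian, D2_rho, e]
  rcases eq_or_ne i j with rfl | hij
  · rw [Matrix.one_apply_eq]
    have h1 : ∀ x : Fin n, 2 * (((EuclideanSpace.single i (1:ℂ) : Cn n) x).re *
        ((EuclideanSpace.single i (1:ℂ) : Cn n) x).re) +
        2 * (((EuclideanSpace.single i (1:ℂ) : Cn n) x).im *
        ((EuclideanSpace.single i (1:ℂ) : Cn n) x).im) = if x = i then 2 else 0 := by
      intro x; by_cases hx : x = i <;> simp [hx]
    have h2 : ∀ x : Fin n, 2 * (((I • (EuclideanSpace.single i (1:ℂ) : Cn n)) x).re *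
        ((I • (EuclideanSpace.single i (1:ℂ) : Cn n)) x).re) +
        2 * (((I • (EuclideanSpace.single i (1:ℂ) : Cn n)) x).im *
        ((I • (EuclideanSpace.single i (1:ℂ) : Cn n)) x).im) = if x = i then 2 else 0 := by
      intro x; by_cases hx : x = i <;> simp [hx]
    have h3 : ∀ x : Fin n, 2 * (((EuclideanSpace.single i (1:ℂ) : Cn n) x).re *
        ((I • (EuclideanSpace.single i (1:ℂ) : Cn n)) x).re) +
        2 * (((EuclideanSpace.single i (1:ℂ) : Cn n) x).im *
        ((I • (EuclideanSpace.single i (1:ℂ) : Cn n)) x).im) = 0 := by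
      intro x; by_cases hx : x = i <;> simp [hx]
    have h4 : ∀ x : Fin n, 2 * (((I • (EuclideanSpace.single i (1:ℂ) : Cn n)) x).re *
        ((EuclideanSpace.single i (1:ℂ) : Cn n) x).re) +
        2 * (((I • (EuclideanSpace.single i (1:ℂ) : Cn n)) x).im *
        ((EuclideanSpace.single i (1:ℂ) : Cn n) x).im) = 0 := by
      intro x; by_cases hx : x = i <;> simp [hx]
    rw [Finset.sum_congr rfl fun x _ => h1 x, Finset.sum_congr rfl fun x _ => h2 x,
      Finset.sum_congr rfl fun x _ => h3 x, Finset.sum_congr rfl fun x _ => h4 x]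
    simp
    norm_num
  · rw [Matrix.one_apply_ne hij]
    have h0 : ∀ (c d : ℂ) (x : Fin n), 2 * (((EuclideanSpace.single i c : Cn n) x).re *
        ((EuclideanSpace.single j d : Cn n) x).re) +
        2 * (((EuclideanSpace.single i c : Cn n) x).im *
        ((EuclideanSpace.single j d : Cn n) x).im) = 0 := by
      intro c d x
      by_cases hx : x = i
      · subst hx; simp [hij]
      · simp [hx]
    have hI : ∀ k : Fin n, I • (EuclideanSpace.single k (1:ℂ) : Cn n) = EuclideanSpace.single k I := by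
      intro k; ext x; simp
    rw [hI, hI]
    simp only [h0]
    simp

lemma posDef_rho (z : Cn n) : (complexHessian (rho (n := n)) z).PosDef := by
  rw [complexHessian_rho]; exact Matrix.PosDef.one

lemma contDiff_rho : ContDiff ℝ ∞ (rho (n := n)) := by
  have h3 : (rho (n := n)) = fun z : Cn n => ∑ i, (Rc i z * Rc i z + Ic i z * Ic i z) - 1 := by
    funext z; rw [rho, norm_sq_eq]
  rw [h3]
  apply ContDiff.sub _ contDiff_const
  apply ContDiff.sum
  intro i _
  exact (((Rc i).contDiff).mul ((Rc i).contDiff)).add (((Ic i).contDiff).mul ((Ic i).contDiff))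

lemma ball_domain (hn : 1 ≤ n) : IsStrictlyPseudoconvexDomain (Metric.ball (0 : Cn n) 1) := by
  refine ⟨Metric.isOpen_ball, ⟨⟨0, by simp⟩, (convex_ball _ _).isPreconnected⟩,
    Metric.isBounded_ball, univ, rho, isOpen_univ, subset_univ _, contDiff_rho.contDiffOn,
    fun z _ => posDef_rho z, ?_, ?_⟩
  · ext z
    simp only [Metric.mem_ball, dist_zero_right, mem_univ, true_and, mem_ofPred_eq, rho]
    constructor
    · intro h; nlinarith [norm_nonneg z]
    · intro h; nlinarith [norm_nonneg z]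
  · intro z hz
    have : Nonempty (Fin n) := ⟨⟨0, hn⟩⟩
    rw [frontier_ball _ one_ne_zero] at hz
    have hz1 : ‖z‖ = 1 := by simpa using hz
    intro h0
    have h1 : fderiv ℝ (rho (n := n)) z z = 2 * ‖z‖ ^ 2 := by
      rw [(hasFDerivAt_rho z).fderiv, norm_sq_eq, dN, Finset.mul_sum]
      simp
      refine Finset.sum_congr rfl fun i _ => ?_
      ring
    rw [h0, hz1] at h1
    simp at h1

/-! ### `log ‖z‖` is plurisubharmonic -/

lemma logNorm_eq (z : Cn n) : logNorm z = ENNReal.log (ENNReal.ofReal ‖z‖) := by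
  rw [logNorm]
  split_ifs with h
  · simp [h]
  · rw [ENNReal.log_ofReal_of_pos (norm_pos_iff.2 h)]

lemma continuous_logNorm : Continuous (logNorm (n := n)) := by
  have : (logNorm (n := n)) = fun z => ENNReal.log (ENNReal.ofReal ‖z‖) := funext logNorm_eq
  rw [this]
  exact ENNReal.continuous_log.comp (ENNReal.continuous_ofReal.comp continuous_norm)

lemma logNorm_le_iff (z : Cn n) (c : ℝ) : logNorm z ≤ (c : EReal) ↔ ‖z‖ ≤ Real.exp c := by
  rw [logNorm]
  split_ifs with h
  · simp [h, (Real.exp_pos c).le]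
  · rw [EReal.coe_le_coe_iff, Real.log_le_iff_le_exp (norm_pos_iff.2 h)]

lemma isPSH_logNorm (hn : 1 ≤ n) : IsPSH (univ : Set (Cn n)) logNorm := by
  refine ⟨continuous_logNorm.upperSemicontinuous.upperSemicontinuousOn _, ?_, ?_, ?_⟩
  · intro z _
    rw [logNorm]
    split_ifs
    · exact bot_ne_top
    · exact EReal.coe_ne_top _
  · intro z _
    have : Nonempty (Fin n) := ⟨⟨0, hn⟩⟩
    have hd : Dense ({0}ᶜ : Set (Cn n)) := dense_compl_singleton 0
    have h1 : ∃ᶠ y in 𝓝 z, y ∈ ({0}ᶜ : Set (Cn n)) := mem_closure_iff_frequently.1 (hd z)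
    refine h1.mono fun y hy => ?_
    rw [logNorm, if_neg (by simpa using hy)]
    exact EReal.coe_ne_bot _
  · intro a b _ p hp
    rw [logNorm_le_iff]
    set F : ℂ → Cn n := fun ζ => exp (-(p.eval ζ)) • (a + ζ • b) with hF
    have hFd : Differentiable ℂ F :=
      Differentiable.fun_smul ((Polynomial.differentiable p).neg.cexp)
        ((differentiable_const a).add (differentiable_id.smul_const b))
    have hnorm : ∀ ζ, ‖F ζ‖ = Real.exp (-(p.eval ζ).re) * ‖a + ζ • b‖ := by
      intro ζ; rw [hF]; simp only; rw [norm_smul, Complex.norm_exp, Complex.neg_re]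
    have h1 : ∀ ζ ∈ frontier (Metric.ball (0:ℂ) 1), ‖F ζ‖ ≤ 1 := by
      intro ζ hζ
      rw [frontier_ball _ one_ne_zero] at hζ
      have h2 := (logNorm_le_iff _ _).1 (hp ζ (by simpa using hζ))
      rw [hnorm, Real.exp_neg]
      rw [inv_mul_le_iff₀ (Real.exp_pos _), mul_one]
      exact h2
    have h2 := Complex.norm_le_of_forall_mem_frontier_norm_le Metric.isBounded_ball
      hFd.diffContOnCl h1 (z := 0) (subset_closure (by simp))
    rw [hnorm, Real.exp_neg, inv_mul_le_iff₀ (Real.exp_pos _), mul_one] at h2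
    simpa using h2

lemma ball_data (hn : 1 ≤ n) (T : ℝ) :
    IsData (Metric.ball (0 : Cn n) 1) T logNorm (fun _ _ => 0) := by
  refine ⟨⟨univ, isOpen_univ, subset_univ _, isPSH_logNorm hn⟩, contDiffOn_const, ?_⟩
  intro z hz t _
  rw [frontier_ball _ one_ne_zero] at hz
  have hz1 : ‖z‖ = 1 := by simpa using hz
  have hz0 : z ≠ 0 := by rintro rfl; simp at hz1
  rw [logNorm, if_neg hz0, hz1, Real.log_one]

end Pool.Agent.D0H39.MAFlow
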