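import Pool.Agent.D0H39.MAFlowC

open Set Filter Topology Complex MeasureTheory
open scoped ContDiff ComplexOrder

namespace Pool.Agent.D0H39.MAFlow

variable {n : ℕ}

/-- determinant bound: `log det H ≤ -n log q` if `q tr H ≤ n`. -/
lemma log_det_le {H : Matrix (Fin n) (Fin n) ℂ} (hH : H.PosDef) {q : ℝ} (hq : 0 < q)
    (htr : q * H.trace.re ≤ n) : Real.log H.det.re ≤ -(n * Real.log q) := by
  have hev : ∀ i, 0 < hH.1.eigenvalues i := hH.eigenvalues_pos
  have h1 : H.det.re = ∏ i, hH.1.eigenvalues i := by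
    rw [hH.1.det_eq_prod_eigenvalues]
    have : (∏ i, ((hH.1.eigenvalues i : ℝ) : ℂ)) = ((∏ i, hH.1.eigenvalues i : ℝ) : ℂ) := by
      push_cast; rfl
    exact_mod_cast congrArg Complex.re this
  have h2 : H.trace.re = ∑ i, hH.1.eigenvalues i := by
    rw [hH.1.trace_eq_sum_eigenvalues]
    have : (∑ i, ((hH.1.eigenvalues i : ℝ) : ℂ)) = ((∑ i, hH.1.eigenvalues i : ℝ) : ℂ) := by
      push_cast; rfl
    exact_mod_cast congrArg Complex.re this
  rw [h1, Real.log_prod (fun i _ => (hev i).ne')]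
  have h3 : ∀ i, Real.log (hH.1.eigenvalues i) ≤ q * hH.1.eigenvalues i - 1 - Real.log q := by
    intro i
    have h4 := Real.log_le_sub_one_of_pos (mul_pos hq (hev i))
    rw [Real.log_mul hq.ne' (hev i).ne'] at h4
    linarith
  have h5 := Finset.sum_le_sum (s := (Finset.univ : Finset (Fin n))) fun i _ => h3 i
  refine h5.trans ?_
  rw [Finset.sum_sub_distrib, Finset.sum_sub_distrib, ← Finset.mul_sum, ← h2]
  simp only [Finset.sum_const, Finset.card_univ, Fintype.card_fin, nsmul_eq_mul, mul_one]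
  linarith

lemma norm_line_sq (z v : Cn n) (hv : ‖v‖ = 1) : ∃ b : ℝ, ∀ t : ℝ,
    ‖z + t • v‖ ^ 2 = ‖z‖ ^ 2 + 2 * b * t + t ^ 2 := by
  refine ⟨∑ i, (Rc i z * Rc i v + Ic i z * Ic i v), fun t => ?_⟩
  have h1 : t ^ 2 = t ^ 2 * ‖v‖ ^ 2 := by rw [hv]; ring
  rw [h1, norm_sq_eq, norm_sq_eq, norm_sq_eq, Finset.mul_sum, Finset.sum_mul, Finset.mul_sum,
    ← Finset.sum_add_distrib, ← Finset.sum_add_distrib]
  refine Finset.sum_congr rfl fun i _ => ?_
  simp only [map_add, map_smul, smul_eq_mul]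
  ring

/-- second derivative bound at a spatial maximum of `f - A log(‖z‖²+ε²)` -/
lemma D2_le_barrier {f : Cn n → ℝ} {z v : Cn n} (hf : ContDiffAt ℝ 2 f z) (hv : ‖v‖ = 1)
    {A ε : ℝ} (hA : 0 ≤ A) (hε : 0 < ε)
    (hmax : IsLocalMax (fun y => f y - A * Real.log (‖y‖ ^ 2 + ε ^ 2)) z) :
    D2 f z v v ≤ 2 * A / (‖z‖ ^ 2 + ε ^ 2) := by
  obtain ⟨b, hb⟩ := norm_line_sq z v hv
  set a : ℝ := ‖z‖ ^ 2 + ε ^ 2 with ha
  have ha0 : 0 < a := by positivity
  have hpos : ∀ t : ℝ, 0 < a + 2 * b * t + t ^ 2 := by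
    intro t
    have h1 : a + 2 * b * t + t ^ 2 = ‖z + t • v‖ ^ 2 + ε ^ 2 := by rw [hb]; ring
    rw [h1]; positivity
  have hq : ∀ t : ℝ, HasDerivAt (fun t : ℝ => a + 2 * b * t + t ^ 2) (2 * b + 2 * t) t := by
    intro t
    have := (((hasDerivAt_id t).const_mul (2 * b)).const_add a).add ((hasDerivAt_id t).pow 2)
    refine this.congr_deriv ?_
    simp
  have h1 : ∀ t : ℝ, HasDerivAt (fun t : ℝ => A * Real.log (a + 2 * b * t + t ^ 2))
      (A * ((2 * b + 2 * t) / (a + 2 * b * t + t ^ 2))) t := fun t =>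
    ((hq t).log (hpos t).ne').const_mul A
  have h2 : HasDerivAt (fun t : ℝ => A * ((2 * b + 2 * t) / (a + 2 * b * t + t ^ 2)))
      (A * ((2 * a - 4 * b ^ 2) / a ^ 2)) 0 := by
    have h3 : HasDerivAt (fun t : ℝ => 2 * b + 2 * t) 2 0 := by
      simpa using ((hasDerivAt_id (0:ℝ)).const_mul 2).const_add (2 * b)
    have h4 := (h3.div (hq 0) (hpos 0).ne').const_mul A
    refine h4.congr_deriv ?_
    simp
    left
    ring
  have h3 := D2_le_of_localMax (v := v) hf (Eventually.of_forall h1) h2 (by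
    have hc : ContinuousAt (fun t : ℝ => z + t • v) 0 := by fun_prop
    have hz : z = (fun t : ℝ => z + t • v) 0 := by simp
    have hmax' : IsLocalMax (fun y => f y - A * Real.log (‖y‖ ^ 2 + ε ^ 2))
      ((fun t : ℝ => z + t • v) 0) := by rwa [← hz]
    have := hmax'.comp_continuous (g := fun t : ℝ => z + t • v) (b := 0) hc
    refine this.congr (Eventually.of_forall fun t => ?_)
    simp only [Function.comp_apply, hb, ha]
    ring_nf)
  refine h3.trans ?_
  have h5 : (2 * a - 4 * b ^ 2) / a ^ 2 ≤ 2 * a / a ^ 2 := by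
    gcongr
    nlinarith [sq_nonneg b]
  calc A * ((2 * a - 4 * b ^ 2) / a ^ 2) ≤ A * (2 * a / a ^ 2) := by gcongr
    _ = 2 * A / a := by field_simp

/-- left maximum gives nonnegative derivative -/
lemma deriv_nonneg_of_left_max {g : ℝ → ℝ} {g' s t : ℝ} (hst : s < t) (hg : HasDerivAt g g' t)
    (hmax : ∀ x ∈ Icc s t, g x ≤ g t) : 0 ≤ g' := by
  have h1 : Tendsto (slope g t) (𝓝[<] t) (𝓝 g') :=
    (hasDerivAt_iff_tendsto_slope.1 hg).mono_left (nhdsWithin_mono _ fun x hx => ne_of_lt hx)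
  refine ge_of_tendsto h1 ?_
  have h2 : Ico s t ∈ 𝓝[<] t := Ico_mem_nhdsLT hst
  filter_upwards [h2] with x hx
  rw [slope_def_field]
  have h3 := hmax x ⟨hx.1, hx.2.le⟩
  exact div_nonneg_of_nonpos (by linarith) (by linarith [hx.2])

section
variable {T : ℝ} {u : Cn n → ℝ → ℝ}
  (hu : IsSolution (Metric.ball (0 : Cn n) 1) T logNorm (fun _ _ => 0) u)
include hu

lemma contDiffAt_joint {z : Cn n} {t : ℝ} (hz : z ∈ Metric.ball (0 : Cn n) 1) (ht : t ∈ Ioo 0 T) :
    ContDiffAt ℝ 2 (fun p : Cn n × ℝ => u p.1 p.2) (z, t) := by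
  have h1 := hu.smooth (z, t) ⟨subset_closure hz, ht⟩
  have h2 : closure (Metric.ball (0 : Cn n) 1) ×ˢ Ioo 0 T ∈ 𝓝 (z, t) :=
    prod_mem_nhds (Filter.mem_of_superset (Metric.isOpen_ball.mem_nhds hz) subset_closure)
      (isOpen_Ioo.mem_nhds ht)
  exact (h1.contDiffAt h2).of_le (WithTop.coe_le_coe.2 le_top)

lemma contDiffAt_space {z : Cn n} {t : ℝ} (hz : z ∈ Metric.ball (0 : Cn n) 1) (ht : t ∈ Ioo 0 T) :
    ContDiffAt ℝ 2 (fun y => u y t) z := by
  have h1 := contDiffAt_joint hu hz ht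
  have h2 : ContDiffAt ℝ 2 (fun y : Cn n => (y, t)) z := contDiffAt_id.prodMk contDiffAt_const
  exact ContDiffAt.comp (f := fun y : Cn n => (y, t)) z h1 h2

lemma hasDerivAt_time {z : Cn n} {t : ℝ} (hz : z ∈ Metric.ball (0 : Cn n) 1) (ht : t ∈ Ioo 0 T) :
    HasDerivAt (fun s => u z s)
      (Real.log (complexHessian (fun y => u y t) z).det.re) t := by
  have h1 := contDiffAt_joint hu hz ht
  have h2 : ContDiffAt ℝ 2 (fun s : ℝ => (z, s)) t := contDiffAt_const.prodMk contDiffAt_id
  have h3 : ContDiffAt ℝ 2 (fun s => u z s) t := ContDiffAt.comp (f := fun s : ℝ => (z, s)) t h1 h2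
  rw [← hu.flow t ht z hz]
  exact (h3.differentiableAt (by norm_num)).hasDerivAt

lemma continuousOn_joint : ContinuousOn (fun p : Cn n × ℝ => u p.1 p.2)
    (Metric.closedBall (0 : Cn n) 1 ×ˢ Ioo 0 T) := by
  have := hu.smooth.continuousOn
  rwa [closure_ball _ one_ne_zero] at this

lemma boundary_zero (hn : 1 ≤ n) {z : Cn n} (hz : ‖z‖ = 1) {t : ℝ} (ht : t ∈ Ioo 0 T) :
    u z t = 0 := by
  have : Nonempty (Fin n) := ⟨⟨0, hn⟩⟩
  exact hu.boundary t ht z (by rw [frontier_ball _ one_ne_zero]; simpa using hz)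

/-- Step A: `u ≤ 0`. -/
lemma u_nonpos (hn : 1 ≤ n) {t : ℝ} (ht : t ∈ Ioo 0 T) {z : Cn n} (hz : ‖z‖ ≤ 1) : u z t ≤ 0 := by
  have hc : ContinuousOn (fun y => u y t) (Metric.closedBall (0 : Cn n) 1) := by
    have := continuousOn_joint hu
    refine this.comp (f := fun y : Cn n => (y, t)) (by fun_prop) fun y hy => ⟨hy, ht⟩
  obtain ⟨z₀, hz₀, hmax⟩ := (isCompact_closedBall (0 : Cn n) 1).exists_isMaxOn
    ⟨0, Metric.mem_closedBall_self zero_le_one⟩ hc
  have hle : u z t ≤ u z₀ t := hmax (by simpa using hz)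
  rcases (show ‖z₀‖ ≤ 1 by simpa using hz₀).eq_or_lt with h1 | h1
  · rw [boundary_zero hu hn h1 ht] at hle; exact hle
  · exfalso
    have hz₀' : z₀ ∈ Metric.ball (0 : Cn n) 1 := by simpa using h1
    have hloc : IsLocalMax (fun y => u y t) z₀ :=
      hmax.isLocalMax (Filter.mem_of_superset (Metric.isOpen_ball.mem_nhds hz₀')
        Metric.ball_subset_closedBall)
    exact not_isLocalMax hn (contDiffAt_space hu hz₀' ht) (hu.spsh t ht z₀ hz₀') hloc

/-- Step B: Hartogs lemma -/
lemma hartogs (hn : 1 ≤ n) (hT : 0 < T) {ε η : ℝ} (hε : 0 < ε) (hη : 0 < η) :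
    ∃ τ : ℝ, 0 < τ ∧ τ ≤ T ∧ ∀ t ∈ Ioo 0 τ, ∀ z : Cn n, ‖z‖ ≤ 1 →
      u z t ≤ 1 / 2 * Real.log (‖z‖ ^ 2 + ε ^ 2) + η := by
  by_contra hcon
  push Not at hcon
  have hk : ∀ k : ℕ, ∃ p : Cn n × ℝ, p.2 ∈ Ioo 0 (min T (1 / ((k:ℝ) + 1))) ∧ ‖p.1‖ ≤ 1 ∧
      1 / 2 * Real.log (‖p.1‖ ^ 2 + ε ^ 2) + η < u p.1 p.2 := by
    intro k
    obtain ⟨t, ht, z, hz, h⟩ := hcon (min T (1 / ((k:ℝ) + 1))) (lt_min hT (by positivity))
      (min_le_left _ _)
    exact ⟨(z, t), ht, hz, h⟩
  choose p hpt hpz hp using hk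
  obtain ⟨zs, hzs, θ, hθ, hlim⟩ := (isCompact_closedBall (0 : Cn n) 1).tendsto_subseq
    (x := fun k => (p k).1) (fun k => by simpa using hpz k)
  have hzs1 : ‖zs‖ ≤ 1 := by simpa using hzs
  have htT : ∀ k, (p k).2 ∈ Ioo 0 T := fun k => ⟨(hpt k).1, (hpt k).2.trans_le (min_le_left _ _)⟩
  have ht0 : Tendsto (fun k => (p (θ k)).2) atTop (𝓝[>] 0) := by
    refine tendsto_nhdsWithin_iff.2 ⟨?_, Eventually.of_forall fun k => (hpt _).1⟩
    refine squeeze_zero (fun k => (hpt _).1.le) (g := fun k => 1 / ((θ k : ℝ) + 1)) (fun k =>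
      ((hpt _).2.trans_le (min_le_right _ _)).le) ?_
    exact tendsto_one_div_add_atTop_nhds_zero_nat.comp hθ.tendsto_atTop
  have hbc : Tendsto (fun k => 1 / 2 * Real.log (‖(p (θ k)).1‖ ^ 2 + ε ^ 2) + η) atTop
      (𝓝 (1 / 2 * Real.log (‖zs‖ ^ 2 + ε ^ 2) + η)) := by
    have h1 : Tendsto (fun k => ‖(p (θ k)).1‖ ^ 2 + ε ^ 2) atTop (𝓝 (‖zs‖ ^ 2 + ε ^ 2)) :=
      ((hlim.norm).pow 2).add_const _
    exact ((h1.log (by positivity)).const_mul _).add_const _
  rcases hzs1.eq_or_lt with h1 | h1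
  · -- boundary case
    have h2 : 0 < 1 / 2 * Real.log (‖zs‖ ^ 2 + ε ^ 2) + η := by
      rw [h1, one_pow]
      have : 0 < Real.log (1 + ε ^ 2) := Real.log_pos (by nlinarith)
      linarith
    obtain ⟨k, hk⟩ := (hbc.eventually (lt_mem_nhds h2)).exists
    have h3 := hp (θ k)
    have h4 := u_nonpos hu hn (htT (θ k)) (hpz (θ k))
    linarith
  · -- interior case
    have hsq : ‖zs‖ < Real.sqrt (‖zs‖ ^ 2 + ε ^ 2) :=
      Real.lt_sqrt_of_sq_lt (by nlinarith)
    obtain ⟨r, hr0, hr1, hr2⟩ : ∃ r : ℝ, 0 < r ∧ ‖zs‖ + 2 * r < 1 ∧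
        ‖zs‖ + r < Real.sqrt (‖zs‖ ^ 2 + ε ^ 2) := by
      refine ⟨min ((1 - ‖zs‖) / 4) ((Real.sqrt (‖zs‖ ^ 2 + ε ^ 2) - ‖zs‖) / 2), ?_, ?_, ?_⟩
      · exact lt_min (by linarith) (by linarith)
      · have := min_le_left ((1 - ‖zs‖) / 4) ((Real.sqrt (‖zs‖ ^ 2 + ε ^ 2) - ‖zs‖) / 2)
        linarith
      · have := min_le_right ((1 - ‖zs‖) / 4) ((Real.sqrt (‖zs‖ ^ 2 + ε ^ 2) - ‖zs‖) / 2)
        linarith
    set c : ℝ := Real.log (‖zs‖ + r) with hc
    have hzr : 0 < ‖zs‖ + r := by positivity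
    have hc0 : c < 0 := Real.log_neg hzr (by linarith)
    have hcb : c < 1 / 2 * Real.log (‖zs‖ ^ 2 + ε ^ 2) := by
      have h2 := Real.log_lt_log hzr hr2
      rw [Real.log_sqrt (by positivity)] at h2
      rw [hc]; linarith
    set B := Metric.ball (0 : Cn n) r
    have hBmem : ∀ v ∈ B, ‖zs + v‖ < 1 := by
      intro v hv
      have : ‖v‖ < r := by simpa [B] using hv
      calc ‖zs + v‖ ≤ ‖zs‖ + ‖v‖ := norm_add_le _ _
        _ < 1 := by linarith
    -- dominated convergence
    have hdc : Tendsto (fun k => ∫ v in B, max (u (zs + v) (p (θ k)).2) c) atTop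
        (𝓝 (∫ v in B, c)) := by
      refine tendsto_integral_of_dominated_convergence (fun _ => |c|) ?_ ?_ ?_ ?_
      · intro k
        have h2 : ContinuousOn (fun v => max (u (zs + v) (p (θ k)).2) c) B := by
          apply ContinuousOn.sup _ continuousOn_const
          refine (continuousOn_joint hu).comp (f := fun v : Cn n => (zs + v, (p (θ k)).2))
            (by fun_prop) fun v hv => ⟨?_, htT _⟩
          simpa using (hBmem v hv).le
        exact h2.aestronglyMeasurable measurableSet_ball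
      · exact integrableOn_const measure_ball_lt_top.ne
      · intro k
        filter_upwards [ae_restrict_mem measurableSet_ball] with v hv
        have h2 := u_nonpos hu hn (htT (θ k)) (hBmem v hv).le
        rw [Real.norm_eq_abs, abs_of_nonpos (max_le h2 hc0.le), abs_of_neg hc0]
        exact neg_le_neg (le_max_right _ _)
      · filter_upwards [ae_restrict_mem measurableSet_ball] with v hv
        have hv' : ‖v‖ < r := by simpa [B] using hv
        have h2 := (hu.initial (zs + v) (subset_closure (by simpa using hBmem v hv))).comp ht0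
        have h3 : logNorm (zs + v) ≤ ((c : ℝ) : EReal) := by
          rw [logNorm_le_iff, hc, Real.exp_log hzr]
          exact (norm_add_le _ _).trans (by linarith)
        rw [Metric.tendsto_atTop]
        intro δ hδ
        have h4 : logNorm (zs + v) < ((c + δ : ℝ) : EReal) :=
          lt_of_le_of_lt h3 (EReal.coe_lt_coe_iff.2 (by linarith))
        obtain ⟨N, hN⟩ := eventually_atTop.1 (h2.eventually (gt_mem_nhds h4))
        refine ⟨N, fun k hk => ?_⟩
        have h5 := hN k hk
        simp only [Function.comp_apply] at h5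
        have h6 : u (zs + v) (p (θ k)).2 < c + δ := EReal.coe_lt_coe_iff.1 h5
        rw [Real.dist_eq, abs_lt]
        constructor
        · have := le_max_right (u (zs + v) (p (θ k)).2) c
          linarith
        · have := max_lt h6 (by linarith : c < c + δ)
          linarith
    rw [setIntegral_const, smul_eq_mul] at hdc
    -- radii
    set R : ℕ → ℝ := fun k => r + ‖(p (θ k)).1 - zs‖ with hR
    have hRlim : Tendsto R atTop (𝓝 r) := by
      have h2 : Tendsto (fun k => ‖(p (θ k)).1 - zs‖) atTop (𝓝 0) :=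
        tendsto_iff_norm_sub_tendsto_zero.1 hlim
      simpa using h2.const_add r
    have hvolR : Tendsto (fun k => (volume : Measure (Cn n)).real (Metric.ball 0 (R k))) atTop
        (𝓝 ((volume : Measure (Cn n)).real B)) := by
      have hform : ∀ s : ℝ, 0 < s → (volume : Measure (Cn n)).real (Metric.ball 0 s) =
          s ^ (Module.finrank ℝ (Cn n)) * (volume : Measure (Cn n)).real (Metric.ball 0 1) := by
        intro s hs
        rw [Measure.real, Measure.addHaar_ball_of_pos _ _ hs, ENNReal.toReal_mul,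
          ENNReal.toReal_ofReal (by positivity), Measure.real]
      have hB : (volume : Measure (Cn n)).real B =
          r ^ (Module.finrank ℝ (Cn n)) * (volume : Measure (Cn n)).real (Metric.ball 0 1) :=
        hform r hr0
      rw [hB]
      have h2 : Tendsto (fun k => (R k) ^ (Module.finrank ℝ (Cn n)) *
          (volume : Measure (Cn n)).real (Metric.ball 0 1)) atTop
          (𝓝 (r ^ (Module.finrank ℝ (Cn n)) *
          (volume : Measure (Cn n)).real (Metric.ball 0 1))) := (hRlim.pow _).mul_const _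
      refine h2.congr fun k => ?_
      rw [hform (R k) (by rw [hR]; positivity)]
    -- the key inequality, eventually
    have hev : ∀ᶠ k in atTop, (volume : Measure (Cn n)).real (Metric.ball 0 (R k)) *
        (1 / 2 * Real.log (‖(p (θ k)).1‖ ^ 2 + ε ^ 2) + η) ≤
        ∫ v in B, max (u (zs + v) (p (θ k)).2) c := by
      have hsmall : ∀ᶠ k in atTop, ‖(p (θ k)).1 - zs‖ < r / 4 := by
        have h2 : Tendsto (fun k => ‖(p (θ k)).1 - zs‖) atTop (𝓝 0) :=
          tendsto_iff_norm_sub_tendsto_zero.1 hlim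
        exact h2.eventually (gt_mem_nhds (by linarith))
      filter_upwards [hsmall] with k hk
      set a := (p (θ k)).1 with ha
      set t := (p (θ k)).2 with ht
      have htk : t ∈ Ioo 0 T := htT _
      have ha1 : ‖a‖ ≤ ‖zs‖ + r / 4 := by
        calc ‖a‖ = ‖zs + (a - zs)‖ := by congr 1; abel
          _ ≤ ‖zs‖ + ‖a - zs‖ := norm_add_le _ _
          _ ≤ _ := by linarith
      have hRk : R k < 5 / 4 * r := by simp only [hR]; rw [← ha]; linarith
      have hRk0 : 0 < R k := by rw [hR]; positivity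
      have hsub : Metric.closedBall a (R k) ⊆ Metric.ball (0 : Cn n) 1 := by
        intro y hy
        rw [mem_ball_zero_iff]
        rw [Metric.mem_closedBall, dist_eq_norm] at hy
        calc ‖y‖ = ‖a + (y - a)‖ := by congr 1; abel
          _ ≤ ‖a‖ + ‖y - a‖ := norm_add_le _ _
          _ < 1 := by linarith
      have hmean := ball_mean (f := fun y => u y t) (a := a) hRk0 hsub
        (fun z hz => contDiffAt_space hu hz htk) (fun z hz => hu.spsh t htk z hz)
      have hlow : (volume : Measure (Cn n)).real (Metric.ball 0 (R k)) *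
          (1 / 2 * Real.log (‖a‖ ^ 2 + ε ^ 2) + η) ≤
          (volume : Measure (Cn n)).real (Metric.ball 0 (R k)) * u a t := by
        have := hp (θ k)
        gcongr
      refine hlow.trans (hmean.trans ?_)
      -- translate: ∫ over ball(a, R) ≤ ∫ over ball (zs, r)
      have hci : ContinuousOn (fun y => u y t) (Metric.closedBall (0 : Cn n) 1) :=
        (continuousOn_joint hu).comp (f := fun y : Cn n => (y, t)) (by fun_prop)
          fun y hy => ⟨hy, htk⟩
      have hci' : IntegrableOn (fun y => u y t) (Metric.closedBall (0 : Cn n) 1) :=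
        hci.integrableOn_compact (isCompact_closedBall _ _)
      have htr : ∀ (b : Cn n) (s : ℝ), ∫ v in Metric.ball (0 : Cn n) s, u (b + v) t =
          ∫ y in Metric.ball b s, u y t := by
        intro b s
        have hpre : (fun v : Cn n => b + v) ⁻¹' (Metric.ball b s) = Metric.ball 0 s := by
          ext v; simp
        have := (measurePreserving_add_left (volume : Measure (Cn n)) b).setIntegral_preimage_emb
          (measurableEmbedding_addLeft b) (fun y => u y t) (Metric.ball b s)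
        rw [hpre] at this
        exact this
      rw [htr]
      have hsub2 : Metric.ball zs r ⊆ Metric.ball a (R k) := by
        intro y hy
        rw [Metric.mem_ball] at hy ⊢
        calc dist y a ≤ dist y zs + dist zs a := dist_triangle _ _ _
          _ < r + ‖a - zs‖ := by rw [dist_comm zs a, dist_eq_norm a zs]; linarith
      have hsub3 : Metric.ball a (R k) ⊆ Metric.closedBall (0 : Cn n) 1 :=
        (Metric.ball_subset_closedBall.trans hsub).trans Metric.ball_subset_closedBall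
      have h2 : ∫ y in Metric.ball a (R k), u y t ≤ ∫ y in Metric.ball zs r, u y t := by
        have h3 : ∫ y in Metric.ball zs r, -(u y t) ≤ ∫ y in Metric.ball a (R k), -(u y t) := by
          apply setIntegral_mono_set
          · exact (hci'.mono_set hsub3).neg
          · filter_upwards [ae_restrict_mem measurableSet_ball] with y hy
            have := u_nonpos hu hn htk (z := y) (by simpa using hsub3 hy)
            simp only [Pi.zero_apply]; linarith
          · exact hsub2.eventuallyLE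
        rw [integral_neg, integral_neg] at h3
        linarith
      refine h2.trans ?_
      rw [← htr zs r]
      apply setIntegral_mono_on
      · have h4 : ContinuousOn (fun v => u (zs + v) t) (Metric.closedBall (0 : Cn n) r) := by
          refine hci.comp (by fun_prop) fun v hv => ?_
          rw [mem_closedBall_zero_iff] at hv ⊢
          exact (norm_add_le _ _).trans (by linarith)
        exact (h4.integrableOn_compact (isCompact_closedBall _ _)).mono_set
          Metric.ball_subset_closedBall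
      · have h4 : ContinuousOn (fun v => max (u (zs + v) t) c) (Metric.closedBall (0 : Cn n) r) := by
          apply ContinuousOn.sup _ continuousOn_const
          refine hci.comp (by fun_prop) fun v hv => ?_
          rw [mem_closedBall_zero_iff] at hv ⊢
          exact (norm_add_le _ _).trans (by linarith)
        exact (h4.integrableOn_compact (isCompact_closedBall _ _)).mono_set
          Metric.ball_subset_closedBall
      · exact measurableSet_ball
      · intro v _; exact le_max_left _ _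
    have hfinal := le_of_tendsto_of_tendsto (hvolR.mul hbc) hdc hev
    have hvol : 0 < (volume : Measure (Cn n)).real B :=
      ENNReal.toReal_pos (Metric.measure_ball_pos volume _ hr0).ne' measure_ball_lt_top.ne
    have h2 := le_of_mul_le_mul_left hfinal hvol
    linarith

/-- Step C: comparison with the barrier -/
lemma comparison (hn : 1 ≤ n) (hT : 0 < T) {ε : ℝ} (hε : 0 < ε) {t' : ℝ} (ht' : t' ∈ Ioo 0 T)
    (htn : n * t' < 1 / 2) {z' : Cn n} (hz' : ‖z'‖ ≤ 1) :
    u z' t' ≤ (1 / 2 - n * t') * Real.log (‖z'‖ ^ 2 + ε ^ 2) := by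
  by_contra hcon
  push Not at hcon
  set w : Cn n → ℝ → ℝ := fun z t => (1 / 2 - n * t) * Real.log (‖z‖ ^ 2 + ε ^ 2) with hw
  set η : ℝ := (u z' t' - w z' t') / 4 with hη
  have hη0 : 0 < η := by rw [hη, hw]; simp only; linarith
  obtain ⟨τ, hτ0, hτT, hτ⟩ := hartogs hu hn hT hε hη0
  have hn0 : (0:ℝ) < n := by exact_mod_cast hn
  have hl0 : 0 < Real.log (1 + ε ^ 2) := Real.log_pos (by nlinarith)
  -- starting time
  obtain ⟨s, hs0, hsτ, hst, hsl⟩ : ∃ s : ℝ, 0 < s ∧ s < τ ∧ s < t' ∧
      n * s * Real.log (1 + ε ^ 2) ≤ η := by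
    refine ⟨min (min (τ / 2) (t' / 2)) (η / (n * Real.log (1 + ε ^ 2))), ?_, ?_, ?_, ?_⟩
    · exact lt_min (lt_min (by linarith) (by linarith [ht'.1])) (by positivity)
    · exact lt_of_le_of_lt ((min_le_left _ _).trans (min_le_left _ _)) (by linarith)
    · exact lt_of_le_of_lt ((min_le_left _ _).trans (min_le_right _ _)) (by linarith [ht'.1])
    · have := min_le_right (min (τ / 2) (t' / 2)) (η / (n * Real.log (1 + ε ^ 2)))
      calc _ = min (min (τ / 2) (t' / 2)) (η / (n * Real.log (1 + ε ^ 2))) *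
            (n * Real.log (1 + ε ^ 2)) := by ring
        _ ≤ η / (n * Real.log (1 + ε ^ 2)) * (n * Real.log (1 + ε ^ 2)) := by gcongr
        _ = η := by field_simp
  set κ : ℝ := η / t' with hκ
  have ht'0 : 0 < t' := ht'.1
  have hκ0 : 0 < κ := by positivity
  set h : Cn n × ℝ → ℝ := fun p => u p.1 p.2 - w p.1 p.2 - 2 * η - κ * (p.2 - s) with hh
  have hsub : Metric.closedBall (0 : Cn n) 1 ×ˢ Icc s t' ⊆
      Metric.closedBall (0 : Cn n) 1 ×ˢ Ioo 0 T :=
    prod_mono le_rfl fun x hx => ⟨hs0.trans_le hx.1, hx.2.trans_lt ht'.2⟩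
  have hcont : ContinuousOn h (Metric.closedBall (0 : Cn n) 1 ×ˢ Icc s t') := by
    have h1 := (continuousOn_joint hu).mono hsub
    have h2 : ContinuousOn (fun p : Cn n × ℝ => w p.1 p.2)
        (Metric.closedBall (0 : Cn n) 1 ×ˢ Icc s t') := by
      apply Continuous.continuousOn
      rw [hw]
      apply Continuous.mul (by fun_prop)
      apply Continuous.log (by fun_prop)
      intro p; positivity
    exact ((h1.sub h2).sub continuousOn_const).sub (by fun_prop)
  obtain ⟨⟨z₀, t₀⟩, hmem, hmax⟩ := ((isCompact_closedBall (0 : Cn n) 1).prod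
    (isCompact_Icc (a := s) (b := t'))).exists_isMaxOn
    ⟨(0, s), ⟨Metric.mem_closedBall_self zero_le_one, ⟨le_rfl, hst.le⟩⟩⟩ hcont
  have hz₀ : ‖z₀‖ ≤ 1 := by simpa using hmem.1
  have ht₀ : t₀ ∈ Icc s t' := hmem.2
  have ht₀T : t₀ ∈ Ioo 0 T := (hsub hmem).2
  have hpos : 0 < h (z₀, t₀) := by
    have h1 : h (z', t') ≤ h (z₀, t₀) := hmax ⟨by simpa using hz', ⟨hst.le, le_rfl⟩⟩
    have h2 : η ≤ h (z', t') := by
      have h3 : u z' t' - w z' t' = 4 * η := by rw [hη]; ring
      have h4 : κ * (t' - s) ≤ η := by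
        calc κ * (t' - s) ≤ κ * t' := by gcongr; linarith
          _ = η := by rw [hκ]; field_simp
      simp only [hh]
      linarith
    linarith
  have htneq : s < t₀ := by
    rcases ht₀.1.eq_or_lt with h1 | h1
    · exfalso
      subst h1
      have h2 := hτ s ⟨hs0, hsτ⟩ z₀ hz₀
      have hql : Real.log (‖z₀‖ ^ 2 + ε ^ 2) ≤ Real.log (1 + ε ^ 2) :=
        Real.log_le_log (by positivity) (by nlinarith [norm_nonneg z₀])
      have h3 : n * s * Real.log (‖z₀‖ ^ 2 + ε ^ 2) ≤ n * s * Real.log (1 + ε ^ 2) := by gcongr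
      simp only [hh, hw] at hpos
      nlinarith
    · exact h1
  have hA0 : 0 < 1 / 2 - n * t₀ := by
    have : (n:ℝ) * t₀ ≤ n * t' := by gcongr; exact ht₀.2
    linarith
  have hzlt : ‖z₀‖ < 1 := by
    rcases hz₀.eq_or_lt with h1 | h1
    · exfalso
      have h2 := boundary_zero hu hn h1 ht₀T
      have h3 : 0 ≤ w z₀ t₀ := by
        simp only [hw]; rw [h1, one_pow]; positivity
      have h4 : 0 ≤ κ * (t₀ - s) := mul_nonneg hκ0.le (by linarith)
      simp only [hh] at hpos
      rw [h2] at hpos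
      linarith
    · exact h1
  have hz₀b : z₀ ∈ Metric.ball (0 : Cn n) 1 := by simpa using hzlt
  set q : ℝ := ‖z₀‖ ^ 2 + ε ^ 2 with hq
  have hq0 : 0 < q := by positivity
  -- spatial maximum
  have hspace : IsLocalMax (fun y => u y t₀ - (1 / 2 - n * t₀) * Real.log (‖y‖ ^ 2 + ε ^ 2)) z₀ := by
    have hnb : Metric.closedBall (0 : Cn n) 1 ∈ 𝓝 z₀ :=
      Filter.mem_of_superset (Metric.isOpen_ball.mem_nhds hz₀b) Metric.ball_subset_closedBall
    filter_upwards [hnb] with y hy
    have : h (y, t₀) ≤ h (z₀, t₀) := hmax ⟨hy, ht₀⟩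
    simp only [hh, hw] at this
    linarith
  have hf := contDiffAt_space hu hz₀b ht₀T
  have hD : ∀ v : Cn n, ‖v‖ = 1 → D2 (fun y => u y t₀) z₀ v v ≤ 2 * (1 / 2 - n * t₀) / q :=
    fun v hv => D2_le_barrier hf hv hA0.le hε hspace
  have hHpos := hu.spsh t₀ ht₀T z₀ hz₀b
  have htrace : q * (complexHessian (fun y => u y t₀) z₀).trace.re ≤ n := by
    rw [trace_complexHessian hf, Complex.ofReal_re]
    have h1 : ∑ i, (D2 (fun y => u y t₀) z₀ (e i) (e i) +
        D2 (fun y => u y t₀) z₀ (I • e i) (I • e i)) / 4 ≤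
        ∑ _i : Fin n, (1 / 2 - n * t₀) / q := by
      refine Finset.sum_le_sum fun i _ => ?_
      have h2 := hD (e i) (by simp [e])
      have h3 := hD (I • e i) (by rw [norm_smul]; simp [e])
      have h4 : 2 * (1 / 2 - n * t₀) / q = 2 * ((1 / 2 - n * t₀) / q) := by ring
      rw [h4] at h2 h3
      linarith
    rw [Finset.sum_const, Finset.card_univ, Fintype.card_fin, nsmul_eq_mul] at h1
    calc q * _ ≤ q * (n * ((1 / 2 - n * t₀) / q)) := by gcongr
      _ = n * (1 / 2 - n * t₀) := by field_simp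
      _ ≤ n * 1 := by
        have : 0 ≤ (n:ℝ) * t₀ := mul_nonneg hn0.le ht₀T.1.le
        gcongr; linarith
      _ = n := mul_one _
  have hdet := log_det_le hHpos hq0 htrace
  -- time derivative
  have htime := hasDerivAt_time hu hz₀b ht₀T
  have hg : HasDerivAt (fun x => u z₀ x - (1 / 2 - n * x) * Real.log q - κ * (x - s))
      (Real.log (complexHessian (fun y => u y t₀) z₀).det.re + n * Real.log q - κ) t₀ := by
    have h1 : HasDerivAt (fun x : ℝ => (1 / 2 - n * x) * Real.log q) (-(n * Real.log q)) t₀ := by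
      have := (((hasDerivAt_id t₀).const_mul (n:ℝ)).const_sub (1 / 2)).mul_const (Real.log q)
      refine this.congr_deriv ?_
      ring
    have h2 : HasDerivAt (fun x : ℝ => κ * (x - s)) κ t₀ := by
      simpa using ((hasDerivAt_id t₀).sub_const s).const_mul κ
    refine ((htime.sub h1).sub h2).congr_deriv ?_
    ring
  have hge := deriv_nonneg_of_left_max htneq hg (by
    intro x hx
    have : h (z₀, x) ≤ h (z₀, t₀) := hmax ⟨by simpa using hz₀, ⟨hx.1, hx.2.trans ht₀.2⟩⟩
    simp only [hh, hw] at this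
    rw [← hq] at this
    linarith)
  linarith

theorem no_solution_aux (hn : 1 ≤ n) (hT : 0 < T) : False := by
  have hn0 : (0:ℝ) < n := by exact_mod_cast hn
  set t' : ℝ := min (T / 2) (1 / (4 * n)) with ht'
  have ht0 : 0 < t' := lt_min (by linarith) (by positivity)
  have htT : t' ∈ Ioo 0 T := ⟨ht0, lt_of_le_of_lt (min_le_left _ _) (by linarith)⟩
  have htn : n * t' ≤ 1 / 4 := by
    calc n * t' ≤ n * (1 / (4 * n)) := by gcongr; exact min_le_right _ _
      _ = 1 / 4 := by field_simp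
  have hkey : ∀ M : ℝ, 0 < M → u 0 t' ≤ (1 / 2 - n * t') * (-(2 * M)) := by
    intro M hM
    have h1 := comparison hu hn hT (ε := Real.exp (-M)) (Real.exp_pos _) htT (by linarith)
      (z' := 0) (by simp)
    rw [norm_zero, zero_pow two_ne_zero, zero_add, Real.log_pow, Real.log_exp] at h1
    refine h1.trans (le_of_eq ?_)
    push_cast; ring
  have h1 := hkey (2 * |u 0 t'| + 1) (by positivity)
  have h2 : (1 / 4 : ℝ) ≤ 1 / 2 - n * t' := by linarith
  have h3 : (1 / 2 - n * t') * (-(2 * (2 * |u 0 t'| + 1))) ≤ (1 / 4) * (-(2 * (2 * |u 0 t'| + 1))) := by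
    apply mul_le_mul_of_nonpos_right h2
    have := abs_nonneg (u 0 t')
    linarith
  have h4 := neg_abs_le (u 0 t')
  linarith

end

end Pool.Agent.D0H39.MAFlow
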