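import Mathlib

open Set Filter Topology Complex
open scoped ContDiff ComplexOrder

namespace Pool.Agent.D0H39.MAFlow

/-- `ℂⁿ` with its Euclidean norm. -/
abbrev Cn (n : ℕ) : Type := EuclideanSpace ℂ (Fin n)

/-- The `i`-th unit vector of `ℂⁿ`. -/
noncomputable def e {n : ℕ} (i : Fin n) : Cn n := EuclideanSpace.single i (1 : ℂ)

/-- The second real derivative `D²f(z)(v, w)` of `f : ℂⁿ → ℝ`. -/
noncomputable def D2 {n : ℕ} (f : Cn n → ℝ) (z v w : Cn n) : ℝ :=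
  fderiv ℝ (fun y => fderiv ℝ f y) z v w

/-- The complex Hessian `∂²f/∂z_i∂z̄_j`; with `z_j = x_j + √-1 y_j` it equals
`¼ (f_{x_i x_j} + f_{y_i y_j} + √-1 (f_{x_i y_j} - f_{y_i x_j}))`. -/
noncomputable def complexHessian {n : ℕ} (f : Cn n → ℝ) (z : Cn n) :
    Matrix (Fin n) (Fin n) ℂ := fun i j =>
  (1 / 4 : ℂ) * (((D2 f z (e i) (e j) + D2 f z (I • e i) (I • e j) : ℝ) : ℂ)
    + I * ((D2 f z (e i) (I • e j) - D2 f z (I • e i) (e j) : ℝ) : ℂ))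

/-- Plurisubharmonic functions `u : U → [-∞, ∞)` on an open set `U`: `u` is upper semicontinuous,
never `+∞`, not identically `-∞` near any point, and satisfies the sub-mean value property on
complex discs `{a + ζ b : |ζ| ≤ 1} ⊆ U`, written in the form: a real part of a polynomial in `ζ`
that majorises `u` on the boundary circle majorises it at the centre. -/
def IsPSH {n : ℕ} (U : Set (Cn n)) (u : Cn n → EReal) : Prop :=
  UpperSemicontinuousOn u U ∧ (∀ z ∈ U, u z ≠ ⊤) ∧ (∀ z ∈ U, ∃ᶠ y in 𝓝 z, u y ≠ ⊥) ∧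
  ∀ a b : Cn n, (∀ ζ : ℂ, ‖ζ‖ ≤ 1 → a + ζ • b ∈ U) → ∀ p : Polynomial ℂ,
    (∀ ζ : ℂ, ‖ζ‖ = 1 → u (a + ζ • b) ≤ (((p.eval ζ).re : ℝ) : EReal)) →
    u a ≤ (((p.eval 0).re : ℝ) : EReal)

/-- Bounded strictly pseudoconvex domains with smooth boundary: bounded, open, connected, and
defined near the closure by a smooth strictly plurisubharmonic function with nonvanishing
differential on the boundary. -/
def IsStrictlyPseudoconvexDomain {n : ℕ} (Ω : Set (Cn n)) : Prop :=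
  IsOpen Ω ∧ IsConnected Ω ∧ Bornology.IsBounded Ω ∧
  ∃ (U : Set (Cn n)) (ρ : Cn n → ℝ), IsOpen U ∧ closure Ω ⊆ U ∧ ContDiffOn ℝ ∞ ρ U ∧
    (∀ z ∈ U, (complexHessian ρ z).PosDef) ∧ Ω = {z | z ∈ U ∧ ρ z < 0} ∧
    ∀ z ∈ frontier Ω, fderiv ℝ ρ z ≠ 0

/-- The data of the problem: `u₀` is plurisubharmonic near the closure of `Ω`, and `φ` is smooth on
`closure Ω × [0, T)` with `φ(z, t) = u₀(z)` on `∂Ω × [0, T)`. -/
structure IsData {n : ℕ} (Ω : Set (Cn n)) (T : ℝ) (u₀ : Cn n → EReal) (φ : Cn n → ℝ → ℝ) :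
    Prop where
  psh : ∃ U : Set (Cn n), IsOpen U ∧ closure Ω ⊆ U ∧ IsPSH U u₀
  smooth : ContDiffOn ℝ ∞ (fun p : Cn n × ℝ => φ p.1 p.2) (closure Ω ×ˢ Ico 0 T)
  boundary : ∀ z ∈ frontier Ω, ∀ t ∈ Ico 0 T, (φ z t : EReal) = u₀ z

/-- Solutions of the complex Monge-Ampère flow with initial datum `u₀` and boundary data `φ`
(conditions 1-4 of the problem). -/
structure IsSolution {n : ℕ} (Ω : Set (Cn n)) (T : ℝ) (u₀ : Cn n → EReal) (φ u : Cn n → ℝ → ℝ) :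
    Prop where
  smooth : ContDiffOn ℝ ∞ (fun p : Cn n × ℝ => u p.1 p.2) (closure Ω ×ˢ Ioo 0 T)
  spsh : ∀ t ∈ Ioo 0 T, ∀ z ∈ Ω, (complexHessian (fun y => u y t) z).PosDef
  flow : ∀ t ∈ Ioo 0 T, ∀ z ∈ Ω,
    deriv (fun s => u z s) t = Real.log (complexHessian (fun y => u y t) z).det.re
  boundary : ∀ t ∈ Ioo 0 T, ∀ z ∈ frontier Ω, u z t = φ z t
  initial : ∀ z ∈ closure Ω, Tendsto (fun t => (u z t : EReal)) (𝓝[>] 0) (𝓝 (u₀ z))

/-- `log ‖z‖`, with value `-∞` at the origin. -/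
noncomputable def logNorm {n : ℕ} (z : Cn n) : EReal :=
  if z = 0 then ⊥ else ((Real.log ‖z‖ : ℝ) : EReal)

end Pool.Agent.D0H39.MAFlow
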